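import Pool.Agent.BOG.Stmts

/-!
# Squad BOG, row RKW
-/

set_option autoImplicit false

namespace Pool.Agent.BOG.H23

open Pool.Agent.BOG

universe v

theorem rkw : RkwStmt.{v} := by
  intro K _ n k m c hm hk hne w hw
  classical
  by_contra hcon
  rw [not_le] at hcon
  set A : Set (Fin n) := {P : Fin n | w 0 - m P * w 1 - c P * w 2 = 0} with hA
  rw [Set.ncard_eq_toFinset_card' A] at hcon
  obtain ⟨t, htA, htc⟩ := Finset.exists_subset_card_eq (show k + 2 ≤ A.toFinset.card by omega)
  have hf : ∀ i, w 0 - m (t.orderEmbOfFin htc i) * w 1 - c (t.orderEmbOfFin htc i) * w 2 = 0 := by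
    intro i
    have h1 := htA (Finset.orderEmbOfFin_mem t htc i)
    rw [Set.mem_toFinset] at h1
    exact h1
  -- every line lies in `A`
  have hall : ∀ P, w 0 - m P * w 1 - c P * w 2 = 0 := by
    intro P
    obtain ⟨i, j, hij, hc⟩ := hk P (fun i => t.orderEmbOfFin htc i)
    have h1 := hf i
    have h2 := hf j
    have hne' : m (t.orderEmbOfFin htc i) ≠ m (t.orderEmbOfFin htc j) := by
      intro h
      exact hij ((t.orderEmbOfFin htc).injective (hm h))
    unfold Conc at hc
    have h3 : (m (t.orderEmbOfFin htc i) - m (t.orderEmbOfFin htc j)) *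
        (w 0 - m P * w 1 - c P * w 2) = 0 := by
      linear_combination (w 2) * hc - (m (t.orderEmbOfFin htc j) - m P) * h1 +
        (m (t.orderEmbOfFin htc i) - m P) * h2
    rcases mul_eq_zero.1 h3 with h4 | h4
    · exact absurd (sub_eq_zero.1 h4) hne'
    · exact h4
  obtain ⟨P, Q, R, hPQR⟩ := hne
  apply hPQR
  unfold Conc
  have hP := hall P
  have hQ := hall Q
  have hR := hall R
  by_cases h2 : w 2 = 0
  · by_cases h1 : w 1 = 0
    · exfalso
      apply hw
      have h0 : w 0 = 0 := by
        rw [h1, h2] at hP
        simpa using hP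
      funext i
      fin_cases i
      · exact h0
      · exact h1
      · exact h2
    · have e1 : m Q = m P := by
        have : (m Q - m P) * w 1 = 0 := by
          rw [h2] at hP hQ
          linear_combination hP - hQ
        rcases mul_eq_zero.1 this with h | h
        · exact sub_eq_zero.1 h
        · exact absurd h h1
      have e2 : m R = m P := by
        have : (m R - m P) * w 1 = 0 := by
          rw [h2] at hP hR
          linear_combination hP - hR
        rcases mul_eq_zero.1 this with h | h
        · exact sub_eq_zero.1 h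
        · exact absurd h h1
      rw [e1, e2]
      ring
  · have h3 : w 2 * ((m Q - m P) * (c R - c P) - (m R - m P) * (c Q - c P)) = 0 := by
      linear_combination (m Q - m P) * (hP - hR) - (m R - m P) * (hP - hQ)
    rcases mul_eq_zero.1 h3 with h | h
    · exact absurd h h2
    · exact sub_eq_zero.1 h

end Pool.Agent.BOG.H23
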